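import Mathlib

set_option autoImplicit false

namespace Pool.Agent.Results.MP_63f2bb_co.HeawoodArc

open Equiv

/-- The subspace `W` of `V → ℝ` is invariant under the linear action `(σ x)_{σ(i)} = x_i` of `S`. -/
def Invariant {V : Type} (S : Subgroup (Perm V)) (W : Submodule ℝ (V → ℝ)) : Prop :=
  ∀ σ ∈ S, ∀ f ∈ W, (fun v => f (σ⁻¹ v)) ∈ W

/-- `W` is an `S`-irreducible subspace: nonzero, invariant, without proper nonzero invariant subspace. -/
def Irred {V : Type} (S : Subgroup (Perm V)) (W : Submodule ℝ (V → ℝ)) : Prop :=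
  W ≠ ⊥ ∧ Invariant S W ∧ ∀ U : Submodule ℝ (V → ℝ), U ≤ W → Invariant S U → U = ⊥ ∨ U = W

/-- `S` is an arc-transitive group of automorphisms of `G`. -/
def ArcTransitive {V : Type} (G : SimpleGraph V) (S : Subgroup (Perm V)) : Prop :=
  (∀ σ ∈ S, ∀ u v, G.Adj u v ↔ G.Adj (σ u) (σ v)) ∧
    ∀ u v u' v', G.Adj u v → G.Adj u' v' → ∃ σ ∈ S, σ u = u' ∧ σ v = v'

abbrev P : Type := ZMod 7 × Bool

/-- nonzero squares modulo 7 -/
def sq (d : ZMod 7) : Bool := d = 1 ∨ d = 2 ∨ d = 4

/-- adjacency of the Heawood graph -/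
def adj (u v : P) : Bool :=
  (!u.2 && v.2 && sq (v.1 - u.1)) || (u.2 && !v.2 && sq (u.1 - v.1))

theorem adj_symm : ∀ u v : P, adj u v = adj v u := by
  rintro ⟨x, i⟩ ⟨y, j⟩
  cases i <;> cases j <;> simp [adj]

/-- The Heawood graph. -/
def H : SimpleGraph P where
  Adj u v := adj u v = true
  symm := ⟨fun u v h => by rwa [adj_symm]⟩
  loopless := ⟨by
    rintro ⟨x, i⟩ h
    cases i <;> simp [adj] at h⟩

instance : DecidableRel H.Adj := fun u v => inferInstanceAs (Decidable (adj u v = true))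

/-- exchange of the two layers -/
def flip (u : P) : P := (u.1, !u.2)

/-- automorphisms of the Heawood graph commuting with `flip` -/
def S : Subgroup (Perm P) where
  carrier := {σ | (∀ u v, H.Adj u v ↔ H.Adj (σ u) (σ v)) ∧ ∀ u, σ (flip u) = flip (σ u)}
  mul_mem' := by
    rintro a b ⟨h1, h2⟩ ⟨h3, h4⟩
    refine ⟨fun u v => ?_, fun u => ?_⟩
    · rw [Perm.mul_apply, Perm.mul_apply, ← h1, h3]
    · rw [Perm.mul_apply, h4, h2]; rfl
  one_mem' := ⟨fun u v => Iff.rfl, fun u => rfl⟩
  inv_mem' := by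
    rintro a ⟨h1, h2⟩
    have h3 : ∀ u, a (a⁻¹ u) = u := fun u => a.apply_symm_apply u
    refine ⟨fun u v => ?_, fun u => ?_⟩
    · rw [h1 (a⁻¹ u), h3, h3]
    · apply a.injective
      rw [h3, h2, h3]

/-- the affine maps -/
def af (a b : ZMod 7) (u : P) : P := (a * u.1 + b, if sq a then u.2 else !u.2)

theorem af_adj : ∀ a b : ZMod 7, a ≠ 0 → ∀ u v : P, adj u v = adj (af a b u) (af a b v) := by
  have h1 : ∀ a d : ZMod 7, a ≠ 0 → sq a = true → sq (a * d) = sq d := by decide
  have h2 : ∀ a d : ZMod 7, a ≠ 0 → sq a = false → sq (a * d) = sq (-d) := by decide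
  rintro a b ha ⟨x, i⟩ ⟨y, j⟩
  have h3 : a * y + b - (a * x + b) = a * (y - x) := by ring
  have h4 : a * x + b - (a * y + b) = a * (x - y) := by ring
  cases hsq : sq a
  · have h5 := h2 a (y - x) ha hsq
    have h6 := h2 a (x - y) ha hsq
    rw [neg_sub] at h5 h6
    cases i <;> cases j <;> simp [adj, af, hsq, h3, h4, h5, h6]
  · have h5 := h1 a (y - x) ha hsq
    have h6 := h1 a (x - y) ha hsq
    cases i <;> cases j <;> simp [adj, af, hsq, h3, h4, h5, h6]

instance : Fact (Nat.Prime 7) := ⟨by norm_num⟩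

theorem af_inj (a b : ZMod 7) (ha : a ≠ 0) : Function.Injective (af a b) := by
  rintro ⟨x, i⟩ ⟨y, j⟩ h
  simp only [af, Prod.mk.injEq, add_left_inj] at h
  have h1 := mul_left_cancel₀ ha h.1
  subst h1
  have h2 := h.2
  split_ifs at h2
  · simp [h2]
  · simp at h2; simp [h2]

/-- the affine maps as permutations -/
noncomputable def A (a b : ZMod 7) (ha : a ≠ 0) : Perm P :=
  Equiv.ofBijective (af a b) (Finite.injective_iff_bijective.1 (af_inj a b ha))

theorem A_apply (a b : ZMod 7) (ha : a ≠ 0) (u : P) : A a b ha u = af a b u := rfl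

theorem A_mem (a b : ZMod 7) (ha : a ≠ 0) : A a b ha ∈ S := by
  refine ⟨fun u v => ?_, ?_⟩
  · rw [A_apply, A_apply]
    change (adj u v = true) ↔ (adj _ _ = true)
    rw [af_adj a b ha]
  · rintro ⟨x, i⟩
    rw [A_apply, A_apply]
    simp only [af, flip]
    split_ifs <;> rfl

theorem arcTransitive : ArcTransitive H S := by
  refine ⟨fun σ hσ => hσ.1, ?_⟩
  have key : ∀ u v, H.Adj u v → ∃ σ ∈ S, σ (0, false) = u ∧ σ (1, true) = v := by
    intro u v h
    have h1 : ∀ u v : P, adj u v = true → v.1 - u.1 ≠ 0 ∧ af (v.1 - u.1) u.1 (0, false) = u ∧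
        af (v.1 - u.1) u.1 (1, true) = v := by decide
    obtain ⟨h2, h3, h4⟩ := h1 u v h
    exact ⟨A _ u.1 h2, A_mem _ _ _, h3, h4⟩
  intro u v u' v' h h'
  obtain ⟨σ, h1, h2, h3⟩ := key u v h
  obtain ⟨τ, h4, h5, h6⟩ := key u' v' h'
  refine ⟨τ * σ⁻¹, mul_mem h4 (inv_mem h1), ?_, ?_⟩
  · rw [Perm.mul_apply, ← h2, ← h5]
    exact congrArg τ (σ.symm_apply_apply _)
  · rw [Perm.mul_apply, ← h3, ← h6]
    exact congrArg τ (σ.symm_apply_apply _)

/-- The invariant subspace. -/
def W : Submodule ℝ (P → ℝ) where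
  carrier := {f | (∀ u, f (flip u) = f u) ∧ ∑ x, f (x, false) = 0}
  add_mem' := by
    rintro f g ⟨h1, h2⟩ ⟨h3, h4⟩
    exact ⟨fun u => by rw [Pi.add_apply, Pi.add_apply, h1, h3], by
      simp only [Pi.add_apply]; rw [Finset.sum_add_distrib, h2, h4, add_zero]⟩
  zero_mem' := ⟨fun u => rfl, by simp⟩
  smul_mem' := by
    rintro c f ⟨h1, h2⟩
    exact ⟨fun u => by rw [Pi.smul_apply, Pi.smul_apply, h1], by
      simp only [Pi.smul_apply, smul_eq_mul]; rw [← Finset.mul_sum, h2, mul_zero]⟩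

theorem W_flip {f : P → ℝ} (hf : f ∈ W) (x : ZMod 7) (i : Bool) : f (x, i) = f (x, false) := by
  cases i
  · rfl
  · exact hf.1 (x, false)

theorem sum_flip {f : P → ℝ} (hf : ∀ u, f (flip u) = f u) : ∑ u, f u = 2 * ∑ x, f (x, false) := by
  rw [Fintype.sum_prod_type]
  simp only [Fintype.sum_bool]
  rw [Finset.mul_sum]
  refine Finset.sum_congr rfl fun x _ => ?_
  have h : f (x, true) = f (x, false) := hf (x, false)
  rw [h]; ring

theorem W_inv : Invariant S W := by
  rintro σ hσ f ⟨h1, h2⟩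
  have h0 := inv_mem hσ
  have h3 : ∀ u, f (σ⁻¹ (flip u)) = f (σ⁻¹ u) := fun u => by rw [h0.2, h1]
  refine ⟨h3, ?_⟩
  have h4 := sum_flip (f := fun u => f (σ⁻¹ u)) h3
  have h5 := sum_flip h1
  have h6 : ∑ u, f (σ⁻¹ u) = ∑ u, f u := Equiv.sum_comp σ⁻¹ f
  rw [h6, h5, h2] at h4
  linarith

/-- the vector `7 e_y - 1` on both layers -/
def E (y : ZMod 7) (u : P) : ℝ := if u.1 = y then 6 else -1

theorem E_sum (y : ZMod 7) : ∑ x, E y (x, false) = 0 := by
  have : ∀ x, E y (x, false) = (if x = y then 7 else 0) - 1 := by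
    intro x; simp only [E]; split_ifs <;> norm_num
  simp only [this, Finset.sum_sub_distrib, Finset.sum_ite_eq', Finset.mem_univ, if_true]
  simp [ZMod.card]

theorem E_mem_W (y : ZMod 7) : E y ∈ W := ⟨fun _ => rfl, E_sum y⟩

theorem W_irred : Irred S W := by
  refine ⟨?_, W_inv, ?_⟩
  · intro h
    have h1 := E_mem_W 0
    rw [h, Submodule.mem_bot] at h1
    have h2 := congrFun h1 (0, false)
    simp [E] at h2
  intro U hUW hU
  by_cases hbot : U = ⊥
  · exact Or.inl hbot
  refine Or.inr (le_antisymm hUW ?_)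
  have hU' : ∀ σ ∈ S, ∀ f ∈ U, (fun v => f (σ v)) ∈ U := by
    intro σ hσ f hf
    have := hU σ⁻¹ (inv_mem hσ) f hf
    simpa using this
  obtain ⟨f, hf, hf0⟩ := (Submodule.ne_bot_iff U).1 hbot
  have hfW := hUW hf
  obtain ⟨x0, hx0⟩ : ∃ x0, f (x0, false) ≠ 0 := by
    by_contra hc
    apply hf0
    ext ⟨x, i⟩
    rw [W_flip hfW]
    by_contra h
    exact hc ⟨x, h⟩
  have hE0 : E 0 ∈ U := by
    have h1 : (∑ a : ZMod 7, if h : a ≠ 0 then (fun v => f (A a x0 h v)) else 0) ∈ U := by
      refine Submodule.sum_mem _ fun a _ => ?_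
      split_ifs with h
      · exact hU' _ (A_mem a x0 h) f hf
      · exact U.zero_mem
    have h2 : (∑ a : ZMod 7, if h : a ≠ 0 then (fun v => f (A a x0 h v)) else 0) = f (x0, false) • E 0 := by
      ext ⟨x, i⟩
      rw [Finset.sum_apply, Pi.smul_apply, smul_eq_mul]
      have h3 : ∀ a : ZMod 7, (if h : a ≠ 0 then (fun v => f (A a x0 h v)) else 0) (x, i) =
          f (a * x + x0, false) - if a = 0 then f (x0, false) else 0 := by
        intro a
        by_cases ha : a = 0
        · subst ha; simp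
        · rw [dif_pos ha, if_neg ha, sub_zero]
          change f (af a x0 (x, i)) = _
          exact W_flip hfW _ _
      simp only [h3, Finset.sum_sub_distrib, Finset.sum_ite_eq', Finset.mem_univ, if_true, E]
      by_cases hx : x = 0
      · subst hx
        simp only [mul_zero, zero_add, if_true, Finset.sum_const, Finset.card_univ, ZMod.card]
        simp; ring
      · rw [if_neg hx]
        have h4 : ∑ a : ZMod 7, f (a * x + x0, false) = ∑ y : ZMod 7, f (y, false) :=
          Equiv.sum_comp ((Equiv.mulRight₀ x hx).trans (Equiv.addRight x0)) (fun y => f (y, false))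
        rw [h4, hfW.2]; ring
    rw [h2] at h1
    have h5 := U.smul_mem (f (x0, false))⁻¹ h1
    rwa [smul_smul, inv_mul_cancel₀ hx0, one_smul] at h5
  have hE : ∀ y, E y ∈ U := by
    intro y
    have h1 := hU' _ (A_mem 1 (-y) one_ne_zero) _ hE0
    convert h1 using 1
    ext ⟨x, i⟩
    rw [A_apply]
    simp only [E, af, one_mul]
    congr 1
    rw [← sub_eq_add_neg, sub_eq_zero]
  intro g hg
  have h1 : g = ∑ y : ZMod 7, (g (y, false) / 7) • E y := by
    ext ⟨x, i⟩
    rw [Finset.sum_apply, W_flip hg]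
    have h2 : ∀ y : ZMod 7, ((g (y, false) / 7) • E y) (x, i) =
        (if x = y then g (y, false) else 0) - g (y, false) / 7 := by
      intro y
      simp only [Pi.smul_apply, smul_eq_mul, E]
      split_ifs <;> ring
    simp only [h2, Finset.sum_sub_distrib, Finset.sum_ite_eq, Finset.mem_univ, if_true]
    rw [← Finset.sum_div, hg.2]; ring
  rw [h1]
  exact Submodule.sum_mem _ fun y _ => U.smul_mem _ (hE y)

theorem not_eigen (t : ℝ) : ¬ W ≤ Module.End.eigenspace (Matrix.toLin' (H.adjMatrix ℝ)) t := by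
  intro h
  have h1 := h (sub_mem (E_mem_W 0) (E_mem_W 1))
  rw [Module.End.mem_eigenspace_iff, Matrix.toLin'_apply] at h1
  have h2 := congrFun h1 (5, false)
  rw [SimpleGraph.adjMatrix_mulVec_apply] at h2
  have h3 : H.neighborFinset (5, false) = {(6, true), (0, true), (2, true)} := by decide
  rw [h3] at h2
  have e1 : ((6 : ZMod 7), true) ∉ ({(0, true), (2, true)} : Finset P) := by decide
  have e2 : ((0 : ZMod 7), true) ∉ ({(2, true)} : Finset P) := by decide
  rw [Finset.sum_insert e1, Finset.sum_insert e2, Finset.sum_singleton] at h2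
  have k1 : (6 : ZMod 7) ≠ 0 := by decide
  have k2 : (6 : ZMod 7) ≠ 1 := by decide
  have k3 : (0 : ZMod 7) ≠ 1 := by decide
  have k4 : (2 : ZMod 7) ≠ 0 := by decide
  have k5 : (2 : ZMod 7) ≠ 1 := by decide
  have k6 : (5 : ZMod 7) ≠ 0 := by decide
  have k7 : (5 : ZMod 7) ≠ 1 := by decide
  simp only [Pi.sub_apply, Pi.smul_apply, smul_eq_mul, E, if_neg k1, if_neg k2, if_neg k3, if_neg k4, if_neg k5,
    if_neg k6, if_neg k7, if_true] at h2
  norm_num at h2

theorem connected : H.Connected := by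
  have h1 : ∀ v : P, ∃ a b : P, (a = (0, false) ∨ adj (0, false) a = true) ∧ (b = a ∨ adj a b = true) ∧
      (v = b ∨ adj b v = true) := by decide
  have h2 : ∀ v, H.Reachable (0, false) v := by
    intro v
    obtain ⟨a, b, ha, hb, hv⟩ := h1 v
    have r1 : H.Reachable (0, false) a := by
      rcases ha with rfl | ha
      · exact SimpleGraph.Reachable.refl _
      · exact SimpleGraph.Adj.reachable (G := H) ha
    have r2 : H.Reachable a b := by
      rcases hb with rfl | hb
      · exact SimpleGraph.Reachable.refl _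
      · exact SimpleGraph.Adj.reachable (G := H) hb
    have r3 : H.Reachable b v := by
      rcases hv with rfl | hv
      · exact SimpleGraph.Reachable.refl _
      · exact SimpleGraph.Adj.reachable (G := H) hv
    exact (r1.trans r2).trans r3
  exact { preconnected := fun u v => (h2 u).symm.trans (h2 v), nonempty := ⟨(0, false)⟩ }

/-- There is a finite connected simple graph `G` (the Heawood graph), an arc-transitive group `S` of
automorphisms of `G` and an `S`-irreducible subspace `W` of `ℝ ^ V` that lies in no eigenspace of the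
adjacency matrix of `G`. -/
theorem result : ∃ (V : Type) (_ : Fintype V) (_ : DecidableEq V) (G : SimpleGraph V)
    (_ : DecidableRel G.Adj) (S : Subgroup (Perm V)) (W : Submodule ℝ (V → ℝ)),
    G.Connected ∧ ArcTransitive G S ∧ Irred S W ∧
      ∀ t : ℝ, ¬ W ≤ Module.End.eigenspace (Matrix.toLin' (G.adjMatrix ℝ)) t :=
  ⟨P, inferInstance, inferInstance, H, inferInstance, S, W, connected, arcTransitive, W_irred, not_eigen⟩

end Pool.Agent.Results.MP_63f2bb_co.HeawoodArc
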